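import Pool.Agent.Q226.Bog.Defs
import Pool.Agent.Q226.Bog.Red
import Pool.Agent.Q226.Bog.NP

set_option autoImplicit false

/-!
# Solving Boggle logic puzzles is NP-complete

The definitions (`KAdj`, `IsBoard`, `Occurs`, `Inst`, `side`, `Legal`, `Solvable`, `BoggleSolve`,
`NPCompleteP`) are in `Pool/Agent/Q226/Bog/Defs.lean`; `InNPP` and `NPHardP` (membership in NP and
NP-hardness of a decision problem about encoded data, under polynomial-time many-one reductions) are
in `Pool/Agent/NPC/Defs.lean`.

The reduction is from bin packing with numbers in unary (and, to begin with, from exact cover by
3-sets). The board has side `n = 3 G + 2`. There are `G + 1` strips, each consisting of `2 n`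
letters arranged as two full lines with all king's moves between them; consecutive strips are
connected by one further letter. A strip can only be embedded as two full adjacent lines, all strips
are parallel, and between two consecutive strips there is exactly one line, which contains the
connecting letter. The other letters form paths (the items), each of which has to lie in one of the
`G` remaining lines, and at most `n - 1` item letters fit into each of these lines. Fillers reduce
the capacity of `b` of the lines to the given capacity and fill the other lines.
-/

namespace Pool.Agent.Results.MP_406c0a_lc.NPComplete

open Pool.Agent.Q226.Bog

/-- **BOGGLE-SOLVE is NP-complete.** -/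
theorem result : NPCompleteP BoggleSolve := ⟨inNP, hard⟩

end Pool.Agent.Results.MP_406c0a_lc.NPComplete
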